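import Pool.Agent.Y538.Net.Main

/-!
# Networks with arbitrary smooth gates for matrix multiplication: the exponent
-/

set_option autoImplicit false
set_option linter.unusedSectionVars false

namespace Pool.Agent.Y538.Net

open Topology Filter Finset Pool.Agent.H515R2.MMR Pool.Agent.W329.AR
open Pool.Agent.Y538.Par (two_le_omega)

section upper

variable {n a b : ℕ}

/-- A bilinear algorithm gives a network of multiplications. -/
lemma solves_of_fintype {κ : Type} [Fintype κ] (ha : 2 ≤ a) (hb : 1 ≤ b)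
    (P Q : κ → Pairs ℝ n →L[ℝ] ℝ) (c : Fin n → Fin n → κ → ℝ)
    (H : ∀ (x : Pairs ℝ n) i k, ∑ t, c i k t * (P t x * Q t x) = ∑ j, x.1 i j * x.2 j k) :
    Solves ℝ n a b (Fintype.card κ) := by
  classical
  set m := Fintype.card κ with hm
  let e : κ ≃ Fin m := Fintype.equivFin κ
  let p : ℕ → Pairs ℝ n →L[ℝ] ℝ := fun l => if h : l < m then P (e.symm ⟨l, h⟩) else 0
  let q : ℕ → Pairs ℝ n →L[ℝ] ℝ := fun l => if h : l < m then Q (e.symm ⟨l, h⟩) else 0
  let g : ℕ → Fin b → Pairs ℝ n → ℝ := fun l _ x => p l x * q l x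
  let F : Fin n → Fin n → Pairs ℝ n → ℝ := fun i k =>
    ∑ t, c i k t • g (e t) ⟨0, hb⟩
  refine ⟨fun _ => Set.univ, fun _ => g, fun _ => F, fun _ => ⟨⟨isOpen_univ, ?_⟩, ?_⟩, ?_⟩
  · intro l hl
    refine ⟨fun i => if (i : ℕ) = 0 then p l else q l, fun v _ => v ⟨0, by omega⟩ * v ⟨1, by omega⟩,
      ?_, ?_⟩
    · intro i
      refine Submodule.subset_span (Or.inl ?_)
      by_cases hi : (i : ℕ) = 0
      · exact ⟨p l, 0, by funext x; simp [hi]⟩
      · exact ⟨q l, 0, by funext x; simp [hi]⟩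
    · intro x _
      refine ⟨?_, fun o => by simp [g]⟩
      refine contDiffAt_pi.mpr fun o => ?_
      have h0 : ContDiff ℝ 2 fun v : Fin a → ℝ => v ⟨0, by omega⟩ := contDiff_apply ℝ ℝ _
      have h1 : ContDiff ℝ 2 fun v : Fin a → ℝ => v ⟨1, by omega⟩ := contDiff_apply ℝ ℝ _
      exact (h0.mul h1).contDiffAt
  · intro i k
    refine Submodule.sum_mem _ fun t _ => Submodule.smul_mem _ _ ?_
    exact Submodule.subset_span (Or.inr ⟨e t, (e t).2, ⟨0, hb⟩, rfl⟩)
  · have hall : {x : Pairs ℝ n | ∃ _w : ℕ, x ∈ Set.univ ∧ ∀ i j, F i j x = ∑ k, x.1 i k * x.2 k j} =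
        Set.univ := by
      ext x
      simp only [Set.mem_ofPred_eq, Set.mem_univ, true_and, iff_true]
      refine ⟨0, fun i k => ?_⟩
      rw [← H x i k]
      simp only [F, Finset.sum_apply, Pi.smul_apply, smul_eq_mul, g]
      refine Finset.sum_congr rfl fun t _ => ?_
      have h1 : p (e t) = P t := by
        simp only [p]
        rw [dif_pos (e t).2]
        congr 1
        exact e.symm_apply_apply t
      have h2 : q (e t) = Q t := by
        simp only [q]
        rw [dif_pos (e t).2]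
        congr 1
        exact e.symm_apply_apply t
      rw [h1, h2]
    rw [hall]
    exact not_isMeagre_of_isOpen isOpen_univ Set.univ_nonempty

/-- real part of a complex linear form in the entries of the first matrix -/
noncomputable def reA (α : Fin n → Fin n → ℝ) : Pairs ℝ n →L[ℝ] ℝ :=
  ∑ i, ∑ j, α i j • pA i j
/-- real part of a complex linear form in the entries of the second matrix -/
noncomputable def reB (α : Fin n → Fin n → ℝ) : Pairs ℝ n →L[ℝ] ℝ :=
  ∑ i, ∑ j, α i j • pB i j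

lemma reA_apply (α : Fin n → Fin n → ℝ) (x : Pairs ℝ n) :
    reA α x = ∑ i, ∑ j, α i j * x.1 i j := by
  unfold reA
  simp only [_root_.sum_apply, _root_.smul_apply, smul_eq_mul, pA_apply]

lemma reB_apply (α : Fin n → Fin n → ℝ) (x : Pairs ℝ n) :
    reB α x = ∑ i, ∑ j, α i j * x.2 i j := by
  unfold reB
  simp only [_root_.sum_apply, _root_.smul_apply, smul_eq_mul, pB_apply]

/-- Complex bilinear algorithms give real networks. -/
theorem solves_of_hasRank {r : ℕ} (ha : 2 ≤ a) (hb : 1 ≤ b) (h : HasRank n r) :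
    Solves ℝ n a b (4 * r) := by
  classical
  obtain ⟨α, β, γ, H⟩ := h
  have hcard : Fintype.card (Fin r × Fin 4) = 4 * r := by simp [mul_comm]
  rw [← hcard]
  let P : Fin r × Fin 4 → Pairs ℝ n →L[ℝ] ℝ := fun t =>
    ![reA fun i j => (α t.1 i j).re, reA fun i j => (α t.1 i j).im,
      reA fun i j => (α t.1 i j).re, reA fun i j => (α t.1 i j).im] t.2
  let Q : Fin r × Fin 4 → Pairs ℝ n →L[ℝ] ℝ := fun t =>
    ![reB fun i j => (β t.1 i j).re, reB fun i j => (β t.1 i j).im,
      reB fun i j => (β t.1 i j).im, reB fun i j => (β t.1 i j).re] t.2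
  let c : Fin n → Fin n → Fin r × Fin 4 → ℝ := fun i k t =>
    ![(γ t.1 k i).re, -(γ t.1 k i).re, -(γ t.1 k i).im, -(γ t.1 k i).im] t.2
  refine solves_of_fintype ha hb P Q c fun x i k => ?_
  -- the complex identity
  have hc : ∑ t : Fin r, (∑ p, ∑ q, α t p q * (x.1 p q : ℂ)) *
      (∑ p, ∑ q, β t p q * (x.2 p q : ℂ)) * γ t k i = ((∑ j, x.1 i j * x.2 j k : ℝ) : ℂ) := by
    have h1 : ∀ t : Fin r, (∑ p, ∑ q, α t p q * (x.1 p q : ℂ)) *
        (∑ p, ∑ q, β t p q * (x.2 p q : ℂ)) * γ t k i =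
        ∑ p, ∑ q, ∑ p', ∑ q', (x.1 p q : ℂ) * (x.2 p' q' : ℂ) *
          (α t p q * β t p' q' * γ t k i) := by
      intro t
      rw [Finset.sum_mul, Finset.sum_mul]
      refine Finset.sum_congr rfl fun p _ => ?_
      rw [Finset.sum_mul, Finset.sum_mul]
      refine Finset.sum_congr rfl fun q _ => ?_
      rw [Finset.mul_sum, Finset.sum_mul]
      refine Finset.sum_congr rfl fun p' _ => ?_
      rw [Finset.mul_sum, Finset.sum_mul]
      refine Finset.sum_congr rfl fun q' _ => ?_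
      ring
    rw [Finset.sum_congr rfl fun t _ => h1 t]
    have h2 : ∑ t : Fin r, ∑ p, ∑ q, ∑ p', ∑ q', (x.1 p q : ℂ) * (x.2 p' q' : ℂ) *
          (α t p q * β t p' q' * γ t k i) =
        ∑ p, ∑ q, ∑ p', ∑ q', (x.1 p q : ℂ) * (x.2 p' q' : ℂ) *
          ∑ t : Fin r, α t p q * β t p' q' * γ t k i := by
      rw [Finset.sum_comm]
      refine Finset.sum_congr rfl fun p _ => ?_
      rw [Finset.sum_comm]
      refine Finset.sum_congr rfl fun q _ => ?_
      rw [Finset.sum_comm]
      refine Finset.sum_congr rfl fun p' _ => ?_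
      rw [Finset.sum_comm]
      refine Finset.sum_congr rfl fun q' _ => ?_
      rw [Finset.mul_sum]
    rw [h2]
    simp_rw [← H]
    rw [Fintype.sum_eq_single i]
    · push_cast
      refine Finset.sum_congr rfl fun j _ => ?_
      rw [Fintype.sum_eq_single j, Fintype.sum_eq_single k]
      · simp
      · intro q' hq'
        simp [hq']
      · intro p' hp'
        refine Finset.sum_eq_zero fun q' _ => ?_
        simp [hp'.symm]
    · intro p hp
      refine Finset.sum_eq_zero fun q _ => Finset.sum_eq_zero fun p' _ =>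
        Finset.sum_eq_zero fun q' _ => ?_
      simp [hp.symm]
  have hre := congrArg Complex.re hc
  rw [Complex.ofReal_re] at hre
  rw [← hre, Complex.re_sum, Fintype.sum_prod_type]
  refine Finset.sum_congr rfl fun t _ => ?_
  have eA : (∑ p, ∑ q, α t p q * (x.1 p q : ℂ)) =
      ((reA (fun i j => (α t i j).re) x : ℝ) : ℂ) +
        ((reA (fun i j => (α t i j).im) x : ℝ) : ℂ) * Complex.I := by
    rw [reA_apply, reA_apply]
    push_cast
    rw [Finset.sum_mul, ← Finset.sum_add_distrib]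
    refine Finset.sum_congr rfl fun p _ => ?_
    rw [Finset.sum_mul, ← Finset.sum_add_distrib]
    refine Finset.sum_congr rfl fun q _ => ?_
    conv_lhs => rw [← Complex.re_add_im (α t p q)]
    ring
  have eB : (∑ p, ∑ q, β t p q * (x.2 p q : ℂ)) =
      ((reB (fun i j => (β t i j).re) x : ℝ) : ℂ) +
        ((reB (fun i j => (β t i j).im) x : ℝ) : ℂ) * Complex.I := by
    rw [reB_apply, reB_apply]
    push_cast
    rw [Finset.sum_mul, ← Finset.sum_add_distrib]
    refine Finset.sum_congr rfl fun p _ => ?_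
    rw [Finset.sum_mul, ← Finset.sum_add_distrib]
    refine Finset.sum_congr rfl fun q _ => ?_
    conv_lhs => rw [← Complex.re_add_im (β t p q)]
    ring
  rw [eA, eB]
  simp only [Fin.sum_univ_four, P, Q, c, Matrix.cons_val_zero, Matrix.cons_val_one,
    Matrix.cons_val, Complex.mul_re, Complex.mul_im, Complex.add_re, Complex.add_im,
    Complex.ofReal_re, Complex.ofReal_im, Complex.I_re, Complex.I_im]
  ring

end upper

/-- **The exponent of the number of smooth gates of bounded size.** -/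
theorem exponent {a b : ℕ} (ha : 2 ≤ a) (hb : 1 ≤ b) :
    sInf {τ : ℝ | ∃ C : ℝ, ∀ n : ℕ, ∃ L : ℕ, Solves ℝ n a b L ∧ (L : ℝ) ≤ C * (n : ℝ) ^ τ} =
      omega := by
  have hω := two_le_omega
  have hsub : {τ : ℝ | ∃ C : ℝ, ∀ n : ℕ, (rk n : ℝ) ≤ C * (n : ℝ) ^ τ} ⊆
      {τ : ℝ | ∃ C : ℝ, ∀ n : ℕ, ∃ L : ℕ, Solves ℝ n a b L ∧ (L : ℝ) ≤ C * (n : ℝ) ^ τ} := by
    rintro τ ⟨C, hC⟩
    refine ⟨4 * C, fun n => ⟨4 * rk n, solves_of_hasRank ha hb (hasRank_rk n), ?_⟩⟩
    push_cast
    have := hC n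
    linarith
  have hlow : ∀ τ ∈ {τ : ℝ | ∃ C : ℝ, ∀ n : ℕ, ∃ L : ℕ, Solves ℝ n a b L ∧
      (L : ℝ) ≤ C * (n : ℝ) ^ τ}, omega ≤ τ := by
    rintro τ ⟨C, hC⟩
    by_contra hcon
    push Not at hcon
    set K : ℝ := ((a * min a b : ℕ) : ℝ) ^ (omega / 3) with hK
    have hK0 : 0 < K := by
      have : 0 < a * min a b := Nat.mul_pos (by omega) (by omega)
      have : (0 : ℝ) < ((a * min a b : ℕ) : ℝ) := by exact_mod_cast this
      positivity
    have t := (tendsto_rpow_atTop (y := omega - τ) (by linarith)).comp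
      (tendsto_natCast_atTop_atTop (R := ℝ))
    obtain ⟨n, hn1, hn2⟩ := ((t.eventually (eventually_gt_atTop (C * K))).and
      (eventually_ge_atTop 1)).exists
    obtain ⟨L, hL1, hL2⟩ := hC n
    have hn0 : (0 : ℝ) < n := by exact_mod_cast hn2
    have h1 := lower Complex.ofRealHom hn2 hL1
    rw [← hK] at h1
    have h2 : (n : ℝ) ^ omega ≤ C * (n : ℝ) ^ τ * K := h1.trans (by gcongr)
    have h3 : (n : ℝ) ^ omega = (n : ℝ) ^ (omega - τ) * (n : ℝ) ^ τ := by
      rw [← Real.rpow_add hn0]; congr 1; ring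
    rw [h3] at h2
    simp only [Function.comp] at hn1
    have h4 : 0 < (n : ℝ) ^ τ := Real.rpow_pos_of_pos hn0 _
    nlinarith
  refine le_antisymm ?_ ?_
  · exact csInf_le_csInf ⟨omega, hlow⟩ omega_set_nonempty hsub
  · exact le_csInf (omega_set_nonempty.mono hsub) hlow

end Pool.Agent.Y538.Net
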