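import Pool.Agent.Y538.Par.Sums
import Pool.Agent.W329.AR.Basic

/-!
# A matrix multiplication tensor as a sum of few small ones
-/

set_option autoImplicit false
set_option linter.unusedSectionVars false

namespace Pool.Agent.Y538.Net

open Finset Filter Pool.Agent.H515R2.MMR Pool.Agent.W329.AR
open Pool.Agent.Y538.Par (le_of_pow_le_poly two_le_omega)

lemma hasRank_of_Rk {I : Type} [Fintype I] [DecidableEq I] {n r : ℕ}
    (hn : Fintype.card I = n) (h : Rk (MMT ℂ I I I) r) : HasRank n r := by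
  obtain ⟨u, v, w, H⟩ := h
  refine hasRank_of_hasRankT (I := I) (T := Fin r) hn (by simp) ?_
  refine ⟨fun t i j => u t (i, j), fun t i j => v t (i, j), fun t i j => w t (i, j), ?_⟩
  intro i j j' k k' l
  rw [← H]
  unfold MMT
  refine if_congr ?_ rfl rfl
  constructor
  · rintro ⟨h1, h2, h3⟩; exact ⟨h3.symm, h1, h2⟩
  · rintro ⟨h1, h2, h3⟩; exact ⟨h2, h3, h1.symm⟩

lemma MR_of_hasRank {n r : ℕ} (h : HasRank n r) : MR ℂ n n n r := by
  obtain ⟨u, v, w, H⟩ := h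
  refine ⟨fun t x => u t x.1 x.2, fun t x => v t x.1 x.2, fun t x => w t x.1 x.2, ?_⟩
  intro x y z
  rw [← H]
  unfold MMT
  refine if_congr ?_ rfl rfl
  constructor
  · rintro ⟨h1, h2, h3⟩; exact ⟨h2, h3, h1.symm⟩
  · rintro ⟨h1, h2, h3⟩; exact ⟨h3.symm, h1, h2⟩

lemma pow_omega_le_rk {n : ℕ} (hn : 1 ≤ n) : (n : ℝ) ^ omega ≤ rk n := by
  obtain ⟨a, b, c, H⟩ := hasRank_rk n
  have h : AD (Fin n) (Fin (rk n)) 0 := by
    refine ⟨fun t i j => Polynomial.C (a t i j), fun t i j => Polynomial.C (b t i j),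
      fun t i j => Polynomial.C (c t i j),
      fun i j j' k k' l => Polynomial.C (if j = j' ∧ k = k' ∧ l = i then 1 else 0), ?_⟩
    intro i j j' k k' l
    refine ⟨?_, by rw [Polynomial.eval_C]⟩
    beta_reduce
    rw [H, map_sum]
    simp
  exact h.omega_le hn

/-- three rotated copies of a decomposition, and powers -/
lemma rk_pow_le {n L p q s : ℕ} (h : D (MMT ℂ (Fin n) (Fin n) (Fin n)) L p q s) (N : ℕ) :
    rk ((n ^ 3) ^ N) ≤ (L ^ 3) ^ N * rk ((p * q * s) ^ N) := by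
  have h2 := h.rot
  have h3 := h2.rot
  have h4 := (h.mul h2).mul h3
  have h5 := D.pi (n := N) (fun _ => _) (fun _ => _) (fun _ => _) (fun _ => _) (fun _ => _)
    (fun _ => h4)
  simp only [Finset.prod_const, Finset.card_univ, Fintype.card_fin] at h5
  have e1 : p * q * s = p * q * s := rfl
  have e2 : q * s * p = p * q * s := by ring
  have e3 : s * p * q = p * q * s := by ring
  have e4 : L * L * L = L ^ 3 := by ring
  rw [e2, e3, e4] at h5
  have h6 := h5.toRk (MR_of_hasRank (hasRank_rk ((p * q * s) ^ N)))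
  have h7 := h6.comp
    (fun x : (Fin N → Fin n × Fin n × Fin n) × (Fin N → Fin n × Fin n × Fin n) => fun t =>
      (((((x.1 t).1, (x.2 t).1)), ((x.1 t).2.1, (x.2 t).2.1)), ((x.1 t).2.2, (x.2 t).2.2)))
    (fun x : (Fin N → Fin n × Fin n × Fin n) × (Fin N → Fin n × Fin n × Fin n) => fun t =>
      (((((x.1 t).1, (x.2 t).1)), ((x.1 t).2.1, (x.2 t).2.1)), ((x.1 t).2.2, (x.2 t).2.2)))
    (fun x : (Fin N → Fin n × Fin n × Fin n) × (Fin N → Fin n × Fin n × Fin n) => fun t =>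
      (((((x.1 t).1, (x.2 t).1)), ((x.1 t).2.1, (x.2 t).2.1)), ((x.1 t).2.2, (x.2 t).2.2)))
  refine rk_le (hasRank_of_Rk (I := Fin N → Fin n × Fin n × Fin n) ?_ (h7.congr ?_))
  · rw [Fintype.card_fun, Fintype.card_fin, Fintype.card_prod, Fintype.card_prod,
      Fintype.card_fin]
    congr 1
    ring
  · intro x y z
    simp only [MMT]
    have hp : ∀ (a b c : Prop) [Decidable a] [Decidable b] [Decidable c],
        (if a then (1 : ℂ) else 0) * (if b then 1 else 0) * (if c then 1 else 0) =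
          if a ∧ b ∧ c then 1 else 0 := by
      intro a b c _ _ _
      by_cases ha : a <;> by_cases hb : b <;> by_cases hc : c <;> simp [ha, hb, hc]
    simp_rw [hp]
    rw [Finset.prod_ite_zero]
    simp only [Finset.mem_univ, forall_true_left, Finset.prod_const_one]
    refine if_congr ?_ rfl rfl
    constructor
    · rintro ⟨g1, g2, g3⟩ t
      have k1 := congrFun g1 t
      have k2 := congrFun g2 t
      have k3 := congrFun g3 t
      rw [k1, k2, k3]
      simp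
    · intro g
      refine ⟨?_, ?_, ?_⟩
      · funext t
        obtain ⟨⟨a1, a2, a3⟩, ⟨b1, b2, b3⟩, ⟨c1, c2, c3⟩⟩ := g t
        exact Prod.ext a1 (Prod.ext b2.symm c3.symm)
      · funext t
        obtain ⟨⟨a1, a2, a3⟩, ⟨b1, b2, b3⟩, ⟨c1, c2, c3⟩⟩ := g t
        exact Prod.ext a2 (Prod.ext b3 c1.symm)
      · funext t
        obtain ⟨⟨a1, a2, a3⟩, ⟨b1, b2, b3⟩, ⟨c1, c2, c3⟩⟩ := g t
        exact Prod.ext a3 (Prod.ext b1.symm c2)

/-- **A sum of `L` tensors of format `⟨p, q, s⟩`.** -/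
theorem D_bound {n L p q s : ℕ} (hn : 1 ≤ n) (h : D (MMT ℂ (Fin n) (Fin n) (Fin n)) L p q s) :
    (n : ℝ) ^ omega ≤ L * ((p * q * s : ℕ) : ℝ) ^ (omega / 3) := by
  have hω := two_le_omega
  have hn0 : (0 : ℝ) < n := by exact_mod_cast hn
  set P : ℕ := p * q * s with hP
  have hstep : ∀ τ : ℝ, omega < τ → ((n : ℝ) ^ 3) ^ omega ≤ (L : ℝ) ^ 3 * (P : ℝ) ^ τ := by
    intro τ hτ
    obtain ⟨σ, ⟨C, hC⟩, hσ⟩ := exists_lt_of_csInf_lt omega_set_nonempty hτ
    have hσ0 : 0 ≤ σ := omega_set_nonneg ⟨C, hC⟩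
    rcases Nat.eq_zero_or_pos P with h0 | h0
    · exfalso
      have h1 := rk_pow_le h 1
      rw [← hP, h0, pow_one, pow_one, pow_one] at h1
      have h2 : rk 0 = 0 := by
        have : HasRank 0 0 := ⟨fun _ _ _ => 0, fun _ _ _ => 0, fun _ _ _ => 0,
          fun i => i.elim0⟩
        exact Nat.le_zero.mp (rk_le this)
      rw [h2, mul_zero] at h1
      have h3 := one_le_rk (n := n ^ 3) (Nat.one_le_pow _ _ hn)
      omega
    have hP0 : (0 : ℝ) < P := by exact_mod_cast h0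
    have hP1 : (1 : ℝ) ≤ P := by exact_mod_cast h0
    refine le_of_pow_le_poly (D := C) (h := 0) (k := 0) (by positivity) (by positivity) ?_
    intro N _
    have h1 := rk_pow_le h N
    have h2 : ((rk ((n ^ 3) ^ N) : ℕ) : ℝ) ≤ ((L : ℝ) ^ 3) ^ N * rk (P ^ N) := by
      exact_mod_cast h1
    have h3 := pow_omega_le_rk (n := (n ^ 3) ^ N) (Nat.one_le_pow _ _ (Nat.one_le_pow _ _ hn))
    have h4 := hC (P ^ N)
    have h5 : ((((n : ℝ) ^ 3) ^ omega)) ^ N = ((((n ^ 3) ^ N : ℕ) : ℝ)) ^ omega := by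
      push_cast
      rw [← Real.rpow_natCast (((n : ℝ) ^ 3) ^ omega) N, ← Real.rpow_mul (by positivity),
        mul_comm omega, Real.rpow_mul (by positivity), Real.rpow_natCast]
    have h6 : (((P ^ N : ℕ) : ℝ)) ^ σ ≤ ((P : ℝ) ^ τ) ^ N := by
      push_cast
      rw [← Real.rpow_natCast ((P : ℝ) ^ τ) N, ← Real.rpow_mul hP0.le,
        ← Real.rpow_natCast (P : ℝ) N, ← Real.rpow_mul hP0.le]
      apply Real.rpow_le_rpow_of_exponent_le hP1
      rw [mul_comm]
      exact mul_le_mul_of_nonneg_right hσ.le (Nat.cast_nonneg N)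
    have hC0 : 0 ≤ C := by
      have h7 := hC 1
      rw [Nat.cast_one, Real.one_rpow, mul_one] at h7
      exact le_trans (Nat.cast_nonneg _) h7
    rw [h5]
    calc ((((n ^ 3) ^ N : ℕ) : ℝ)) ^ omega ≤ rk ((n ^ 3) ^ N) := h3
      _ ≤ ((L : ℝ) ^ 3) ^ N * rk (P ^ N) := h2
      _ ≤ ((L : ℝ) ^ 3) ^ N * (C * (((P ^ N : ℕ) : ℝ)) ^ σ) :=
          mul_le_mul_of_nonneg_left h4 (by positivity)
      _ ≤ ((L : ℝ) ^ 3) ^ N * (C * ((P : ℝ) ^ τ) ^ N) := by gcongr
      _ = C * ((N : ℝ) * (0 : ℕ) + 1) ^ 0 * ((L : ℝ) ^ 3 * (P : ℝ) ^ τ) ^ N := by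
          rw [mul_pow]; ring
  have hP0 : 0 < P := by
    by_contra hcon
    have h0 : P = 0 := by omega
    have := hstep (omega + 1) (by linarith)
    rw [h0, Nat.cast_zero, Real.zero_rpow (by linarith), mul_zero] at this
    have h1 : (0 : ℝ) < ((n : ℝ) ^ 3) ^ omega := by positivity
    linarith
  have hP0' : (0 : ℝ) < P := by exact_mod_cast hP0
  have hlim : ((n : ℝ) ^ 3) ^ omega ≤ (L : ℝ) ^ 3 * (P : ℝ) ^ omega := by
    have hcont : Continuous fun τ : ℝ => (L : ℝ) ^ 3 * (P : ℝ) ^ τ :=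
      (Real.continuous_const_rpow hP0'.ne').const_mul _
    refine ge_of_tendsto ((hcont.tendsto omega).mono_left nhdsWithin_le_nhds :
      Tendsto _ (nhdsWithin omega (Set.Ioi omega)) _) ?_
    exact eventually_nhdsWithin_of_forall fun τ hτ => hstep τ hτ
  have e1 : ((n : ℝ) ^ 3) ^ omega = ((n : ℝ) ^ omega) ^ 3 := by
    rw [← Real.rpow_natCast (n : ℝ) 3, ← Real.rpow_mul hn0.le,
      ← Real.rpow_natCast ((n : ℝ) ^ omega) 3, ← Real.rpow_mul hn0.le, mul_comm]
  have e2 : (L : ℝ) ^ 3 * (P : ℝ) ^ omega = ((L : ℝ) * (P : ℝ) ^ (omega / 3)) ^ 3 := by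
    rw [mul_pow, ← Real.rpow_natCast ((P : ℝ) ^ (omega / 3)) 3, ← Real.rpow_mul hP0'.le]
    congr 2
    push_cast
    ring
  rw [e1, e2] at hlim
  exact le_of_pow_le_pow_left₀ (by norm_num) (by positivity) hlim

end Pool.Agent.Y538.Net
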