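import Pool.Agent.Y538.Net.Hess
import Pool.Agent.Y538.Net.Blocks

/-!
# Networks with arbitrary smooth gates for matrix multiplication: the lower bound
-/

set_option autoImplicit false
set_option linter.unusedSectionVars false

namespace Pool.Agent.Y538.Net

open Topology Filter Finset Pool.Agent.H515R2.MMR Pool.Agent.W329.AR

variable {𝕜 : Type} [NontriviallyNormedField 𝕜] {E : Type} [NormedAddCommGroup E]
  [NormedSpace 𝕜 E]

lemma H2_mul_lin (p q : E →L[𝕜] 𝕜) (x h1 h2 : E) :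
    H2 (fun y => p y * q y) x h1 h2 = p h1 * q h2 + q h1 * p h2 := by
  unfold H2
  have e1 : fderiv 𝕜 (fun y => p y * q y) = fun y => p y • q + q y • p := by
    funext y
    have := p.hasFDerivAt.mul (q.hasFDerivAt (x := y)) (x := y)
    exact this.fderiv
  rw [e1]
  have e2 : HasFDerivAt (fun y => p y • q + q y • p) (p.smulRight q + q.smulRight p) x := by
    refine HasFDerivAt.add ?_ ?_
    · exact (p.hasFDerivAt (x := x)).smul_const q
    · exact (q.hasFDerivAt (x := x)).smul_const p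
  rw [e2.fderiv]
  simp

lemma contDiff_mul_lin (p q : E →L[𝕜] 𝕜) (x : E) : ContDiffAt 𝕜 2 (fun y => p y * q y) x :=
  p.contDiff.contDiffAt.mul q.contDiff.contDiffAt

lemma H2_sum_mul {κ : Type} (s : Finset κ) (p q : κ → E →L[𝕜] 𝕜) (x h1 h2 : E) :
    ContDiffAt 𝕜 2 (fun y => ∑ k ∈ s, p k y * q k y) x ∧
    H2 (fun y => ∑ k ∈ s, p k y * q k y) x h1 h2 =
      ∑ k ∈ s, (p k h1 * q k h2 + q k h1 * p k h2) := by
  classical
  induction s using Finset.induction_on with
  | empty =>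
    simp only [Finset.sum_empty]
    refine ⟨contDiffAt_const, ?_⟩
    have h := H2_affine (E := E) (0 : E →L[𝕜] 𝕜) 0 x
    have e : (fun y : E => (0 : E →L[𝕜] 𝕜) y + 0) = fun _ => (0 : 𝕜) := by
      funext y; simp
    rw [e] at h
    rw [h]
    rfl
  | insert k s hk ih =>
    have e : (fun y => ∑ k ∈ insert k s, p k y * q k y) =
        (fun y => p k y * q k y) + fun y => ∑ k ∈ s, p k y * q k y := by
      funext y
      rw [Finset.sum_insert hk]
      rfl
    rw [e]
    refine ⟨(contDiff_mul_lin (p k) (q k) x).add ih.1, ?_⟩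
    rw [H2_add (contDiff_mul_lin (p k) (q k) x) ih.1, Finset.sum_insert hk, ← ih.2,
      ← H2_mul_lin (p k) (q k) x]
    rfl

section mat

variable {n a b L : ℕ}

/-- entry functionals -/
noncomputable def pA (i k : Fin n) : Pairs 𝕜 n →L[𝕜] 𝕜 :=
  ((ContinuousLinearMap.proj k : (Fin n → 𝕜) →L[𝕜] 𝕜).comp
    (ContinuousLinearMap.proj i : (Fin n → Fin n → 𝕜) →L[𝕜] (Fin n → 𝕜))).comp
    (ContinuousLinearMap.fst 𝕜 _ _)

/-- entry functionals -/
noncomputable def pB (i k : Fin n) : Pairs 𝕜 n →L[𝕜] 𝕜 :=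
  ((ContinuousLinearMap.proj k : (Fin n → 𝕜) →L[𝕜] 𝕜).comp
    (ContinuousLinearMap.proj i : (Fin n → Fin n → 𝕜) →L[𝕜] (Fin n → 𝕜))).comp
    (ContinuousLinearMap.snd 𝕜 _ _)

lemma pA_apply (i k : Fin n) (x : Pairs 𝕜 n) : pA i k x = x.1 i k := rfl
lemma pB_apply (i k : Fin n) (x : Pairs 𝕜 n) : pB i k x = x.2 i k := rfl

/-- Matrix units. -/
def mu (i j : Fin n) : Fin n → Fin n → 𝕜 := fun k l => if k = i ∧ l = j then 1 else 0

lemma H2_entry (i' k' : Fin n) (x : Pairs 𝕜 n) (i j j' k : Fin n) :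
    H2 (fun y : Pairs 𝕜 n => ∑ m, y.1 i' m * y.2 m k') x (mu i j, 0) (0, mu j' k) =
      if i = i' ∧ j = j' ∧ k = k' then 1 else 0 := by
  have h := (H2_sum_mul (E := Pairs 𝕜 n) Finset.univ (fun m => pA i' m) (fun m => pB m k') x
    (mu i j, 0) (0, mu j' k)).2
  simp only [pA_apply, pB_apply] at h
  rw [h]
  simp only [mu, Pi.zero_apply, mul_zero, zero_mul, add_zero]
  by_cases h1 : i = i'
  · by_cases h2 : j = j'
    · rw [Finset.sum_eq_single j]
      · by_cases h3 : k = k' <;> simp [h1, h2, h3, eq_comm]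
        intro h4
        exact absurd h4.symm h3
      · intro m _ hm
        simp [hm]
      · simp
    · rw [if_neg (fun h => h2 h.2.1)]
      refine Finset.sum_eq_zero fun m _ => ?_
      by_cases hm : m = j
      · subst hm
        simp [h2]
      · simp [hm]
  · rw [if_neg (fun h => h1 h.1)]
    refine Finset.sum_eq_zero fun m _ => ?_
    have : ¬ i' = i := fun h => h1 h.symm
    simp [this]

/-- A network that is right on a nonempty open set. -/
lemma exists_open (h : Solves 𝕜 n a b L) : ∃ (D : Set (Pairs 𝕜 n)) (g : ℕ → Fin b → Pairs 𝕜 n → 𝕜)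
    (F : Fin n → Fin n → Pairs 𝕜 n → 𝕜) (x : Pairs 𝕜 n), IsNet a b L D g ∧
      (∀ i j, F i j ∈ Aff g L) ∧ x ∈ D ∧
      ∀ᶠ y in 𝓝 x, ∀ i j, F i j y = ∑ k, y.1 i k * y.2 k j := by
  obtain ⟨D, g, F, hnet, hm⟩ := h
  let Z : ℕ → Set (Pairs 𝕜 n) := fun w =>
    {x | x ∈ D w ∧ ∀ i j, F w i j x = ∑ k, x.1 i k * x.2 k j}
  have e : {x : Pairs 𝕜 n | ∃ w, x ∈ D w ∧ ∀ i j, F w i j x = ∑ k, x.1 i k * x.2 k j} =
      ⋃ w, Z w := by
    ext x
    simp [Z]
  rw [e] at hm
  obtain ⟨w, hw⟩ : ∃ w, ¬ IsMeagre (Z w) := by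
    by_contra hcon
    push Not at hcon
    exact hm (isMeagre_iUnion hcon)
  have hnd : ¬ IsNowhereDense (Z w) := fun h => hw h.isMeagre
  unfold IsNowhereDense at hnd
  obtain ⟨y, hy⟩ := Set.nonempty_iff_ne_empty.mpr hnd
  -- a point of `Z w` in the interior of the closure
  obtain ⟨x, hx1, hx2⟩ := mem_closure_iff.mp (interior_subset hy) _ isOpen_interior hy
  have hcont : ∀ z ∈ D w, ∀ i j, ContinuousAt (F w i j) z := fun z hz i j =>
    (aff_contDiff (gates_contDiff (hnet w).1 hz) _ ((hnet w).2 i j)).continuousAt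
  refine ⟨D w, g w, F w, x, (hnet w).1, (hnet w).2, hx2.1, ?_⟩
  filter_upwards [isOpen_interior.mem_nhds hx1, (hnet w).1.1.mem_nhds hx2.1] with z hz1 hz2
  intro i j
  have hz3 : z ∈ closure (Z w) := interior_subset hz1
  have hcont2 : ContinuousAt (fun y : Pairs 𝕜 n => ∑ k, y.1 i k * y.2 k j) z :=
    (H2_sum_mul (E := Pairs 𝕜 n) Finset.univ (fun m => pA i m) (fun m => pB m j) z 0
      0).1.continuousAt
  have : NeBot (𝓝[Z w] z) := mem_closure_iff_nhdsWithin_neBot.mp hz3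
  have t1 : Tendsto (F w i j) (𝓝[Z w] z) (𝓝 (F w i j z)) :=
    (hcont z hz2 i j).mono_left nhdsWithin_le_nhds
  have t2 : Tendsto (F w i j) (𝓝[Z w] z) (𝓝 (∑ k, z.1 i k * z.2 k j)) := by
    refine (hcont2.mono_left nhdsWithin_le_nhds).congr' ?_
    filter_upwards [self_mem_nhdsWithin] with y hy
    exact (hy.2 i j).symm
  exact tendsto_nhds_unique t1 t2

/-- The tensor of matrix multiplication from a network. -/
lemma tensor_of_solves (h : Solves 𝕜 n a b L) :
    ∃ (X Y : ℕ → Fin a → Fin n × Fin n → 𝕜) (C : ℕ → Fin b → Fin n × Fin n → 𝕜)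
      (β : ℕ → Fin b → Fin a → Fin a → 𝕜), ∀ x y z : Fin n × Fin n,
      (if x.1 = z.2 ∧ x.2 = y.1 ∧ y.2 = z.1 then (1 : 𝕜) else 0) =
        ∑ s ∈ Finset.range L, ∑ o, C s o z * ∑ i, ∑ j, β s o i j * (X s j x * Y s i y) := by
  obtain ⟨D, g, F, x0, hnet, hF, hx, hev⟩ := exists_open h
  obtain ⟨U, β, -, hU⟩ := net_hess hnet hx
  have h1 := fun z : Fin n × Fin n => hU (F z.2 z.1) (hF z.2 z.1)
  choose C hC using h1
  refine ⟨fun s i x => U s i (mu x.1 x.2, 0), fun s i y => U s i (0, mu y.1 y.2),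
    fun s o z => C z s o, β, fun x y z => ?_⟩
  rw [← hC z, ← H2_entry z.2 z.1 x0 x.1 x.2 y.1 y.2]
  have h2 : F z.2 z.1 =ᶠ[𝓝 x0] fun y : Pairs 𝕜 n => ∑ m, y.1 z.2 m * y.2 m z.1 := by
    filter_upwards [hev] with y hy
    exact hy z.2 z.1
  rw [H2_congr h2]

lemma D_of_solves (σ : 𝕜 →+* ℂ) (h : Solves 𝕜 n a b L) :
    D (MMT ℂ (Fin n) (Fin n) (Fin n)) L a 1 a ∧ D (MMT ℂ (Fin n) (Fin n) (Fin n)) L 1 a b := by
  obtain ⟨X, Y, C, β, H⟩ := tensor_of_solves h
  have H' : ∀ x y z : Fin n × Fin n, MMT ℂ (Fin n) (Fin n) (Fin n) x y z =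
      ∑ s : Fin L, ∑ o, σ (C s o z) * ∑ i, ∑ j, σ (β s o i j) * (σ (X s j x) * σ (Y s i y)) := by
    intro x y z
    have h1 := congrArg σ (H x y z)
    have h2 : σ (if x.1 = z.2 ∧ x.2 = y.1 ∧ y.2 = z.1 then (1 : 𝕜) else 0) =
        MMT ℂ (Fin n) (Fin n) (Fin n) x y z := by
      unfold MMT
      split_ifs <;> simp
    rw [← h2, h1, Finset.sum_range]
    simp only [map_sum, map_mul]
  constructor
  · refine ⟨Fin L, Fin a, Unit, Fin a, inferInstance, inferInstance, inferInstance,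
      inferInstance, fun s x => Matrix.of fun j _ => σ (X s j x),
      fun s y => Matrix.of fun _ i => σ (Y s i y),
      fun s z => Matrix.of fun i j => ∑ o, σ (C s o z) * σ (β s o i j), by simp, by simp, by simp,
      by simp, fun x y z => ?_⟩
    rw [H']
    refine Finset.sum_congr rfl fun s _ => ?_
    simp only [Matrix.trace, Matrix.diag, Matrix.mul_apply, Matrix.of_apply,
      Finset.univ_unique, Finset.sum_singleton, Finset.mul_sum]
    rw [Finset.sum_comm]
    rw [Finset.sum_comm]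
    calc ∑ o, ∑ i, ∑ j, σ (C s o z) * (σ (β s o i j) * (σ (X s j x) * σ (Y s i y)))
        = ∑ i, ∑ o, ∑ j, σ (C s o z) * (σ (β s o i j) * (σ (X s j x) * σ (Y s i y))) := by
          rw [Finset.sum_comm]
      _ = ∑ i, ∑ j, ∑ o, σ (C s o z) * (σ (β s o i j) * (σ (X s j x) * σ (Y s i y))) := by
          refine Finset.sum_congr rfl fun i _ => ?_
          rw [Finset.sum_comm]
      _ = ∑ j, ∑ i, ∑ o, σ (C s o z) * (σ (β s o i j) * (σ (X s j x) * σ (Y s i y))) := by
          rw [Finset.sum_comm]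
      _ = _ := by
          refine Finset.sum_congr rfl fun j _ => Finset.sum_congr rfl fun i _ =>
            Finset.sum_congr rfl fun o _ => by ring
  · refine ⟨Fin L, Unit, Fin a, Fin b, inferInstance, inferInstance, inferInstance,
      inferInstance, fun s x => Matrix.of fun _ j => σ (X s j x),
      fun s y => Matrix.of fun j o => ∑ i, σ (β s o i j) * σ (Y s i y),
      fun s z => Matrix.of fun o _ => σ (C s o z), by simp, by simp, by simp,
      by simp, fun x y z => ?_⟩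
    rw [H']
    refine Finset.sum_congr rfl fun s _ => ?_
    simp only [Matrix.trace, Matrix.diag, Matrix.mul_apply, Matrix.of_apply,
      Finset.univ_unique, Finset.sum_singleton, Finset.mul_sum, Finset.sum_mul]
    refine Finset.sum_congr rfl fun o _ => ?_
    rw [Finset.sum_comm]
    refine Finset.sum_congr rfl fun j _ => Finset.sum_congr rfl fun i _ => by ring

/-- **The lower bound.** -/
theorem lower (σ : 𝕜 →+* ℂ) (hn : 1 ≤ n) (h : Solves 𝕜 n a b L) :
    (n : ℝ) ^ omega ≤ L * ((a * min a b : ℕ) : ℝ) ^ (omega / 3) := by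
  obtain ⟨h1, h2⟩ := D_of_solves σ h
  rcases le_total a b with hab | hab
  · rw [min_eq_left hab]
    have := D_bound hn h1
    rwa [mul_one] at this
  · rw [min_eq_right hab]
    have := D_bound hn h2
    rwa [one_mul] at this

end mat

end Pool.Agent.Y538.Net
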