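import Mathlib

/-!
# Networks with arbitrary twice continuously differentiable gates: definitions
-/

set_option autoImplicit false

namespace Pool.Agent.Y538.Net

variable {𝕜 : Type} [NontriviallyNormedField 𝕜] {E : Type} [NormedAddCommGroup E]
  [NormedSpace 𝕜 E]

/-- Linear combinations (with coefficients in `𝕜`) of affine functions of the input and of the
outputs of the first `l` gates. -/
def Aff {b : ℕ} (g : ℕ → Fin b → E → 𝕜) (l : ℕ) : Submodule 𝕜 (E → 𝕜) :=
  Submodule.span 𝕜 ({f | ∃ (ℓ : E →L[𝕜] 𝕜) (c : 𝕜), f = fun x => ℓ x + c} ∪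
    {f | ∃ s < l, ∃ o, f = g s o})

/-- `g 0, …, g (L - 1)` are the outputs of the gates of a network with input in the open set `D`:
the `l`-th gate applies a map `φ : 𝕜 ^ a → 𝕜 ^ b` to `a` linear combinations of affine functions of
the input and of the outputs of the previous gates, and `φ` is twice continuously differentiable at
the values that occur. -/
def IsNet (a b L : ℕ) (D : Set E) (g : ℕ → Fin b → E → 𝕜) : Prop :=
  IsOpen D ∧ ∀ l < L, ∃ (u : Fin a → E → 𝕜) (φ : (Fin a → 𝕜) → Fin b → 𝕜),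
    (∀ i, u i ∈ Aff g l) ∧
      ∀ x ∈ D, ContDiffAt 𝕜 2 φ (fun i => u i x) ∧ ∀ o, g l o x = φ (fun i => u i x) o

/-- Pairs of `n × n` matrices. -/
abbrev Pairs (𝕜 : Type) (n : ℕ) : Type := (Fin n → Fin n → 𝕜) × (Fin n → Fin n → 𝕜)

/-- Products of `n × n` matrices are computed with `L` gates with `a` inputs and `b` outputs: there
are countably many networks with at most `L` gates such that for all inputs in a set which is not
meagre at least one of the networks is defined at the input and gives the product. -/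
def Solves (𝕜 : Type) [NontriviallyNormedField 𝕜] (n a b L : ℕ) : Prop :=
  ∃ (D : ℕ → Set (Pairs 𝕜 n)) (g : ℕ → ℕ → Fin b → Pairs 𝕜 n → 𝕜)
    (F : ℕ → Fin n → Fin n → Pairs 𝕜 n → 𝕜),
    (∀ w, IsNet a b L (D w) (g w) ∧ ∀ i j, F w i j ∈ Aff (g w) L) ∧
      ¬ IsMeagre {x : Pairs 𝕜 n | ∃ w, x ∈ D w ∧ ∀ i j, F w i j x = ∑ k, x.1 i k * x.2 k j}

end Pool.Agent.Y538.Net
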