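import Pool.Agent.Y538.Net.Defs

/-!
# Second derivatives of the functions computed by a network
-/

set_option autoImplicit false
set_option linter.unusedSectionVars false

namespace Pool.Agent.Y538.Net

open Topology Filter

variable {𝕜 : Type} [NontriviallyNormedField 𝕜] {E : Type} [NormedAddCommGroup E]
  [NormedSpace 𝕜 E]

/-- Second derivative. -/
noncomputable def H2 (f : E → 𝕜) (x : E) : E →L[𝕜] E →L[𝕜] 𝕜 := fderiv 𝕜 (fderiv 𝕜 f) x

lemma diff1 {F : Type} [NormedAddCommGroup F] [NormedSpace 𝕜 F] {f : E → F} {x : E}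
    (h : ContDiffAt 𝕜 2 f x) : DifferentiableAt 𝕜 f x :=
  h.differentiableAt (by norm_num)

lemma diff2 {F : Type} [NormedAddCommGroup F] [NormedSpace 𝕜 F] {f : E → F} {x : E}
    (h : ContDiffAt 𝕜 2 f x) : DifferentiableAt 𝕜 (fderiv 𝕜 f) x := by
  have h1 : ContDiffAt 𝕜 1 (fderiv 𝕜 f) x := h.fderiv_right (by norm_num)
  exact h1.differentiableAt (by norm_num)

lemma ev1 {F : Type} [NormedAddCommGroup F] [NormedSpace 𝕜 F] {f : E → F} {x : E}
    (h : ContDiffAt 𝕜 2 f x) : ∀ᶠ y in 𝓝 x, DifferentiableAt 𝕜 f y := by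
  have h1 := (h.of_le (by norm_num : (1 : WithTop ℕ∞) ≤ 2)).eventually (by norm_num)
  filter_upwards [h1] with y hy
  exact hy.differentiableAt (by norm_num)

lemma H2_add {f g : E → 𝕜} {x : E} (hf : ContDiffAt 𝕜 2 f x) (hg : ContDiffAt 𝕜 2 g x) :
    H2 (f + g) x = H2 f x + H2 g x := by
  unfold H2
  have h1 : fderiv 𝕜 (f + g) =ᶠ[𝓝 x] fderiv 𝕜 f + fderiv 𝕜 g := by
    filter_upwards [ev1 hf, ev1 hg] with y h1 h2
    rw [fderiv_add h1 h2]; rfl
  rw [h1.fderiv_eq, fderiv_add (diff2 hf) (diff2 hg)]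

lemma H2_smul {f : E → 𝕜} {x : E} (c : 𝕜) (hf : ContDiffAt 𝕜 2 f x) :
    H2 (c • f) x = c • H2 f x := by
  unfold H2
  have h1 : fderiv 𝕜 (c • f) =ᶠ[𝓝 x] c • fderiv 𝕜 f := by
    filter_upwards [ev1 hf] with y h1
    rw [fderiv_const_smul h1]; rfl
  rw [h1.fderiv_eq, fderiv_const_smul (diff2 hf)]

lemma H2_affine (ℓ : E →L[𝕜] 𝕜) (c : 𝕜) (x : E) : H2 (fun x => ℓ x + c) x = 0 := by
  unfold H2
  have h1 : fderiv 𝕜 (fun x => ℓ x + c) = fun _ => ℓ := by
    funext y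
    rw [fderiv_add_const]
    exact ℓ.fderiv
  rw [h1, fderiv_const_apply]

lemma H2_congr {f g : E → 𝕜} {x : E} (h : f =ᶠ[𝓝 x] g) : H2 f x = H2 g x := by
  unfold H2
  exact h.fderiv.fderiv_eq

/-- Second derivative of a composition. -/
lemma H2_comp {a : ℕ} {φ : (Fin a → 𝕜) → 𝕜} {u : Fin a → E → 𝕜} {x : E}
    (hu : ∀ i, ContDiffAt 𝕜 2 (u i) x) (hφ : ContDiffAt 𝕜 2 φ (fun i => u i x)) :
    ∃ (c : Fin a → 𝕜) (β : Fin a → Fin a → 𝕜), ∀ h1 h2 : E,
      H2 (fun y => φ (fun i => u i y)) x h1 h2 = ∑ i, c i * H2 (u i) x h1 h2 +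
        ∑ i, ∑ j, β i j * (fderiv 𝕜 (u j) x h1 * fderiv 𝕜 (u i) x h2) := by
  classical
  set U : E → (Fin a → 𝕜) := fun y i => u i y with hU
  have hUc : ContDiffAt 𝕜 2 U x := contDiffAt_pi.mpr hu
  have hUcont : ContinuousAt U x := hUc.continuousAt
  -- coordinates of the derivative of `φ`
  let p : Fin a → (Fin a → 𝕜) → 𝕜 := fun i y => fderiv 𝕜 φ y (Pi.single i 1)
  have hchain : ∀ᶠ y in 𝓝 x, fderiv 𝕜 (fun y => φ (U y)) y =
      ∑ i, p i (U y) • fderiv 𝕜 (u i) y := by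
    have h1 : ∀ᶠ y in 𝓝 x, DifferentiableAt 𝕜 φ (U y) := hUcont.eventually (ev1 hφ)
    have h2 : ∀ᶠ y in 𝓝 x, ∀ i, DifferentiableAt 𝕜 (u i) y :=
      eventually_all.mpr fun i => ev1 (hu i)
    filter_upwards [h1, h2] with y g1 g2
    have g3 : HasFDerivAt U (ContinuousLinearMap.pi fun i => fderiv 𝕜 (u i) y) y :=
      hasFDerivAt_pi.mpr fun i => (g2 i).hasFDerivAt
    have g4 := (g1.hasFDerivAt.comp y g3).fderiv
    have g5 : fderiv 𝕜 (fun y => φ (U y)) y = fderiv 𝕜 (φ ∘ U) y := rfl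
    rw [g5, g4]
    refine ContinuousLinearMap.ext fun h => ?_
    rw [ContinuousLinearMap.comp_apply, _root_.sum_apply]
    have g6 : (ContinuousLinearMap.pi fun i => fderiv 𝕜 (u i) y) h =
        ∑ i, (fderiv 𝕜 (u i) y h) • (Pi.single i (1 : 𝕜) : Fin a → 𝕜) := by
      funext j
      rw [Finset.sum_apply]
      simp [Pi.single_apply]
    rw [g6, map_sum]
    refine Finset.sum_congr rfl fun i _ => ?_
    rw [map_smul, _root_.smul_apply, smul_eq_mul, smul_eq_mul, mul_comm]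
  have hp : ∀ i, DifferentiableAt 𝕜 (p i) (U x) := by
    intro i
    have := diff2 hφ
    exact this.clm_apply (differentiableAt_const _)
  have hpU : ∀ i, DifferentiableAt 𝕜 (fun y => p i (U y)) x := fun i =>
    (hp i).comp x (diff1 hUc)
  have hder : HasFDerivAt (fun y => ∑ i, p i (U y) • fderiv 𝕜 (u i) y)
      (∑ i, (p i (U x) • fderiv 𝕜 (fderiv 𝕜 (u i)) x +
        (fderiv 𝕜 (fun y => p i (U y)) x).smulRight (fderiv 𝕜 (u i) x))) x :=
    HasFDerivAt.fun_sum fun i _ => (hpU i).hasFDerivAt.smul (diff2 (hu i)).hasFDerivAt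
  have hpd : ∀ i h, fderiv 𝕜 (fun y => p i (U y)) x h =
      ∑ j, fderiv 𝕜 (p i) (U x) (Pi.single j 1) * fderiv 𝕜 (u j) x h := by
    intro i h
    have g3 : HasFDerivAt U (ContinuousLinearMap.pi fun i => fderiv 𝕜 (u i) x) x :=
      hasFDerivAt_pi.mpr fun i => (diff1 (hu i)).hasFDerivAt
    have g4 := ((hp i).hasFDerivAt.comp x g3).fderiv
    have g5 : fderiv 𝕜 (fun y => p i (U y)) x = fderiv 𝕜 (p i ∘ U) x := rfl
    rw [g5, g4, ContinuousLinearMap.comp_apply]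
    have g6 : (ContinuousLinearMap.pi fun i => fderiv 𝕜 (u i) x) h =
        ∑ i, (fderiv 𝕜 (u i) x h) • (Pi.single i (1 : 𝕜) : Fin a → 𝕜) := by
      funext j
      rw [Finset.sum_apply]
      simp [Pi.single_apply]
    rw [g6, map_sum]
    refine Finset.sum_congr rfl fun i _ => ?_
    rw [map_smul, smul_eq_mul, mul_comm]
  refine ⟨fun i => p i (U x), fun i j => fderiv 𝕜 (p i) (U x) (Pi.single j 1), fun h1 h2 => ?_⟩
  have hfin : H2 (fun y => φ (fun i => u i y)) x = ∑ i, (p i (U x) • fderiv 𝕜 (fderiv 𝕜 (u i)) x +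
        (fderiv 𝕜 (fun y => p i (U y)) x).smulRight (fderiv 𝕜 (u i) x)) := by
    unfold H2
    have g1 : fderiv 𝕜 (fun y => φ (fun i => u i y)) =ᶠ[𝓝 x]
        fun y => ∑ i, p i (U y) • fderiv 𝕜 (u i) y := hchain
    rw [g1.fderiv_eq]
    exact hder.fderiv
  rw [hfin, _root_.sum_apply, _root_.sum_apply,
    ← Finset.sum_add_distrib]
  refine Finset.sum_congr rfl fun i _ => ?_
  rw [_root_.add_apply, _root_.add_apply,
    _root_.smul_apply, _root_.smul_apply,
    ContinuousLinearMap.smulRight_apply, _root_.smul_apply, hpd, Finset.sum_smul,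
    smul_eq_mul]
  congr 1
  refine Finset.sum_congr rfl fun j _ => ?_
  rw [smul_eq_mul]
  ring

variable {a b L : ℕ}

lemma aff_contDiff {g : ℕ → Fin b → E → 𝕜} {x : E} {l : ℕ}
    (hg : ∀ s < l, ∀ o, ContDiffAt 𝕜 2 (g s o) x) : ∀ f ∈ Aff g l, ContDiffAt 𝕜 2 f x := by
  intro f hf
  unfold Aff at hf
  induction hf using Submodule.span_induction with
  | mem f hf =>
    rcases hf with ⟨ℓ, c, rfl⟩ | ⟨s, hs, o, rfl⟩
    · exact ℓ.contDiff.contDiffAt.add contDiffAt_const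
    · exact hg s hs o
  | zero => exact contDiffAt_const (c := (0 : 𝕜))
  | add f f' _ _ h h' => exact h.add h'
  | smul c f _ h => exact h.const_smul c

lemma gates_contDiff {D : Set E} {g : ℕ → Fin b → E → 𝕜} (hnet : IsNet a b L D g) {x : E}
    (hx : x ∈ D) : ∀ s < L, ∀ o, ContDiffAt 𝕜 2 (g s o) x := by
  intro s
  induction s using Nat.strong_induction_on with
  | _ s ih =>
    intro hs o
    obtain ⟨u, φ, hu, hφ⟩ := hnet.2 s hs
    have h1 : ∀ i, ContDiffAt 𝕜 2 (u i) x := fun i =>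
      aff_contDiff (fun s' hs' o' => ih s' hs' (hs'.trans hs) o') _ (hu i)
    have h2 : ContDiffAt 𝕜 2 (fun y => φ (fun i => u i y) o) x := by
      have h3 : ContDiffAt 𝕜 2 (fun y => (fun i => u i y)) x := contDiffAt_pi.mpr h1
      have h4 := (hφ x hx).1.comp x h3
      exact (contDiffAt_pi.mp h4) o
    refine h2.congr_of_eventuallyEq ?_
    filter_upwards [hnet.1.mem_nhds hx] with y hy
    exact (hφ y hy).2 o

/-- The quadratic terms contributed by the gates. -/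
lemma net_hess {D : Set E} {g : ℕ → Fin b → E → 𝕜} (hnet : IsNet a b L D g) {x : E}
    (hx : x ∈ D) : ∃ (U : ℕ → Fin a → E → 𝕜) (β : ℕ → Fin b → Fin a → Fin a → 𝕜),
      (∀ s i, ∃ ℓ : E →L[𝕜] 𝕜, U s i = ℓ) ∧
      ∀ f ∈ Aff g L, ∃ C : ℕ → Fin b → 𝕜, ∀ h1 h2, H2 f x h1 h2 =
        ∑ s ∈ Finset.range L, ∑ o, C s o * ∑ i, ∑ j, β s o i j * (U s j h1 * U s i h2) := by
  classical
  -- the data of the gates
  have hgd := gates_contDiff hnet hx
  have hdata : ∀ s, ∃ (u : Fin a → E → 𝕜), s < L → (∀ i, u i ∈ Aff g s) ∧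
      ∀ o, ∃ (c : Fin a → 𝕜) (β : Fin a → Fin a → 𝕜), ∀ h1 h2 : E,
        H2 (g s o) x h1 h2 = ∑ i, c i * H2 (u i) x h1 h2 +
          ∑ i, ∑ j, β i j * (fderiv 𝕜 (u j) x h1 * fderiv 𝕜 (u i) x h2) := by
    intro s
    by_cases hs : s < L
    swap
    · exact ⟨fun _ _ => 0, fun h => absurd h hs⟩
    obtain ⟨u, φ, hu, hφ⟩ := hnet.2 s hs
    refine ⟨u, fun _ => ⟨hu, fun o => ?_⟩⟩
    have h1 : ∀ i, ContDiffAt 𝕜 2 (u i) x := fun i =>
      aff_contDiff (fun s' hs' o' => hgd s' (hs'.trans hs) o') _ (hu i)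
    have h2 : ContDiffAt 𝕜 2 (fun y => φ y o) (fun i => u i x) :=
      (contDiffAt_pi.mp (hφ x hx).1) o
    obtain ⟨c, β, h⟩ := H2_comp h1 h2
    refine ⟨c, β, fun h1 h2 => ?_⟩
    rw [← h]
    have h3 : g s o =ᶠ[𝓝 x] fun y => φ (fun i => u i y) o := by
      filter_upwards [hnet.1.mem_nhds hx] with y hy
      exact (hφ y hy).2 o
    rw [H2_congr h3]
  choose u hu using hdata
  have hdata2 : ∀ s o, ∃ (c : Fin a → 𝕜) (β : Fin a → Fin a → 𝕜), s < L → ∀ h1 h2 : E,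
        H2 (g s o) x h1 h2 = ∑ i, c i * H2 (u s i) x h1 h2 +
          ∑ i, ∑ j, β i j * (fderiv 𝕜 (u s j) x h1 * fderiv 𝕜 (u s i) x h2) := by
    intro s o
    by_cases hs : s < L
    · obtain ⟨c, β, h⟩ := (hu s hs).2 o
      exact ⟨c, β, fun _ => h⟩
    · exact ⟨0, 0, fun h => absurd h hs⟩
  choose c β hβ using hdata2
  refine ⟨fun s i => fderiv 𝕜 (u s i) x, β, fun s i => ⟨_, rfl⟩, ?_⟩
  -- the span of the quadratic terms
  let q : ℕ → Fin b → (E → E → 𝕜) := fun s o h1 h2 =>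
    ∑ i, ∑ j, β s o i j * (fderiv 𝕜 (u s j) x h1 * fderiv 𝕜 (u s i) x h2)
  let Q : ℕ → Submodule 𝕜 (E → E → 𝕜) := fun l => Submodule.span 𝕜 {f | ∃ s < l, ∃ o, f = q s o}
  have hQmono : ∀ {l l' : ℕ}, l ≤ l' → Q l ≤ Q l' := fun h =>
    Submodule.span_mono fun f ⟨s, hs, o, e⟩ => ⟨s, by omega, o, e⟩
  have hstep : ∀ l ≤ L, (∀ s < l, ∀ o, (fun h1 h2 => H2 (g s o) x h1 h2) ∈ Q l) →
      ∀ f ∈ Aff g l, (fun h1 h2 => H2 f x h1 h2) ∈ Q l := by
    intro l hl hgates f hf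
    have hcd := aff_contDiff (x := x) (l := l) (g := g)
      (fun s hs o => hgd s (by omega) o)
    have hf' := hf
    unfold Aff at hf
    induction hf using Submodule.span_induction with
    | mem f hf =>
      rcases hf with ⟨ℓ, c, rfl⟩ | ⟨s, hs, o, rfl⟩
      · rw [H2_affine]
        exact Submodule.zero_mem _
      · exact hgates s hs o
    | zero =>
      have : H2 (0 : E → 𝕜) x = 0 := by
        have h := H2_affine (E := E) (0 : E →L[𝕜] 𝕜) 0 x
        have e : (fun y : E => (0 : E →L[𝕜] 𝕜) y + 0) = (0 : E → 𝕜) := by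
          funext y; simp
        rw [e] at h
        exact h
      rw [this]
      exact Submodule.zero_mem _
    | add f f' h1 h2 h h' =>
      rw [H2_add (hcd f h1) (hcd f' h2)]
      exact Submodule.add_mem _ (h h1) (h' h2)
    | smul c f h1 h =>
      rw [H2_smul c (hcd f h1)]
      exact Submodule.smul_mem _ c (h h1)
  have hgates : ∀ s < L, ∀ o, (fun h1 h2 => H2 (g s o) x h1 h2) ∈ Q (s + 1) := by
    intro s
    induction s using Nat.strong_induction_on with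
    | _ s ih =>
      intro hs o
      have h1 : ∀ i, (fun h1 h2 => H2 (u s i) x h1 h2) ∈ Q s := by
        intro i
        refine hstep s hs.le (fun s' hs' o' => ?_) _ ((hu s hs).1 i)
        exact hQmono (by omega) (ih s' hs' (by omega) o')
      have h2 : (fun h1 h2 => H2 (g s o) x h1 h2) =
          ∑ i, c s o i • (fun h1 h2 => H2 (u s i) x h1 h2) + q s o := by
        funext h1 h2
        rw [hβ s o hs h1 h2]
        simp only [Pi.add_apply, Finset.sum_apply, Pi.smul_apply, smul_eq_mul, q]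
      rw [h2]
      refine Submodule.add_mem _ (Submodule.sum_mem _ fun i _ =>
        Submodule.smul_mem _ _ (hQmono (Nat.le_succ s) (h1 i))) ?_
      exact Submodule.subset_span ⟨s, Nat.lt_succ_self s, o, rfl⟩
  intro f hf
  have hf1 : (fun h1 h2 => H2 f x h1 h2) ∈ Q L :=
    hstep L le_rfl (fun s hs o => hQmono (by omega) (hgates s hs o)) f hf
  -- extraction of coefficients
  have hrep : ∀ F ∈ Q L, ∃ C : ℕ → Fin b → 𝕜, F = ∑ s ∈ Finset.range L, ∑ o, C s o • q s o := by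
    intro F hF
    induction hF using Submodule.span_induction with
    | mem F hF =>
      obtain ⟨s, hs, o, rfl⟩ := hF
      refine ⟨fun s' o' => if s' = s ∧ o' = o then 1 else 0, ?_⟩
      rw [Finset.sum_eq_single s, Finset.sum_eq_single o]
      · simp
      · intro o' _ ho'; simp [ho']
      · simp
      · intro s' _ hs'; simp [hs']
      · intro h; exact absurd (Finset.mem_range.mpr hs) h
    | zero => exact ⟨0, by simp⟩
    | add F F' _ _ hF hF' =>
      obtain ⟨C, rfl⟩ := hF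
      obtain ⟨C', rfl⟩ := hF'
      exact ⟨C + C', by simp only [Pi.add_apply, add_smul, Finset.sum_add_distrib]⟩
    | smul c F _ hF =>
      obtain ⟨C, rfl⟩ := hF
      exact ⟨c • C, by simp only [Pi.smul_apply, smul_assoc, Finset.smul_sum]⟩
  obtain ⟨C, hC⟩ := hrep _ hf1
  refine ⟨C, fun h1 h2 => ?_⟩
  have := congrFun (congrFun hC h1) h2
  rw [this]
  simp only [Finset.sum_apply, Pi.smul_apply, smul_eq_mul, q]

end Pool.Agent.Y538.Net
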